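import Pool.Agent.Y245.SC.Stm
import Pool.Agent.W632.Schiffer1

/-!
# SC-WEAK and SC-CHG: the weak problem tested with functions of class `C²`, change of variables
-/

set_option autoImplicit false

open Complex MeasureTheory Metric Set Filter Topology ComplexConjugate
open Pool.Agent.TH298.Sch (Sol)
open Pool.Agent.Y245.SC

namespace Pool.Agent.Y287.SC

/-! ### change of variables -/

theorem det_rs (f : ℂ →L[ℂ] ℂ) : (f.restrictScalars ℝ).det = normSq (f 1) := by
  change LinearMap.det ((f : ℂ →ₗ[ℂ] ℂ).restrictScalars ℝ) = _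
  rw [LinearMap.det_restrictScalars, LinearMap.det_ring, Algebra.norm_complex_apply]
  rfl

theorem chg : S_CHG := by
  intro φ r V hr hφ hinj
  have hsub : ball (0 : ℂ) 1 ⊆ ball 0 r := ball_subset_ball hr.le
  have hd : ∀ w ∈ ball (0 : ℂ) 1,
      HasFDerivWithinAt φ ((fderiv ℂ φ w).restrictScalars ℝ) (ball 0 1) w := by
    intro w hw
    have h1 : DifferentiableAt ℂ φ w := (hφ w (hsub hw)).differentiableAt
      (isOpen_ball.mem_nhds (hsub hw))
    exact (h1.hasFDerivAt.restrictScalars ℝ).hasFDerivWithinAt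
  rw [integral_image_eq_integral_abs_det_fderiv_smul volume measurableSet_ball hd
    (hinj.mono hsub)]
  refine setIntegral_congr_fun measurableSet_ball fun w hw => ?_
  change |((fderiv ℂ φ w).restrictScalars ℝ).det| • V (φ w) =
    V (φ w) * (deriv φ w * conj (deriv φ w))
  rw [det_rs, fderiv_apply_one_eq_deriv, abs_of_nonneg (normSq_nonneg _), mul_conj, real_smul,
    mul_comm]

/-! ### the weak problem -/

theorem int_mulC {Ω : Set ℂ} (hb : Bornology.IsBounded Ω) (hm : MeasurableSet Ω) {f : ℂ → ℝ}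
    {g : ℂ → ℂ} (hf : IntegrableOn f Ω) (hg : Continuous g) :
    IntegrableOn (fun x => (f x : ℂ) * g x) Ω := by
  obtain ⟨R, hR⟩ := hb.exists_norm_le
  obtain ⟨C, hC⟩ := (isCompact_closedBall (0 : ℂ) R).exists_bound_of_continuousOn hg.continuousOn
  have hf' : Integrable (fun x => (f x : ℂ)) (volume.restrict Ω) := Integrable.ofReal hf
  refine Integrable.mul_bdd (c := C) hf' hg.aestronglyMeasurable ?_
  filter_upwards [ae_restrict_mem hm] with x hx
  exact hC x (by rw [mem_closedBall_zero_iff]; exact hR x hx)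

theorem lmul (ℓ : ℂ →L[ℝ] ℝ) (a : ℝ) (z : ℂ) : ℓ ((a : ℂ) * z) = a * ℓ z := by
  rw [← real_smul, map_smul, smul_eq_mul]

theorem lin2 (L : ℂ →L[ℝ] ℂ) (z : ℂ) : L z = (z.re : ℂ) * L 1 + (z.im : ℂ) * L I := by
  have h1 : z = z.re • (1 : ℂ) + z.im • I := by
    rw [real_smul, real_smul, mul_one]
    exact (re_add_im z).symm
  conv_lhs => rw [h1]
  rw [map_add, map_smul, map_smul, real_smul, real_smul]

variable {Ω : Set ℂ} {lam c : ℝ} {u : ℂ → ℝ} {G : ℂ → ℂ}

theorem cd_cont {ψ : ℂ → ℂ} (hψ : ContDiff ℝ 1 ψ) (v : ℂ) : Continuous fun x => fderiv ℝ ψ x v :=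
  (hψ.continuous_fderiv (by norm_num)).clm_apply continuous_const

theorem int_G (hb : Bornology.IsBounded Ω) (hm : MeasurableSet Ω) (h : Sol Ω lam c u G)
    {ψ : ℂ → ℂ} (hψ : ContDiff ℝ 1 ψ) : IntegrableOn (fun x => fderiv ℝ ψ x (G x)) Ω := by
  have hGi := h.Gi hb
  have hre : IntegrableOn (fun y => (G y).re) Ω := hGi.re
  have him : IntegrableOn (fun y => (G y).im) Ω := hGi.im
  have e : (fun x => fderiv ℝ ψ x (G x)) = fun x =>
      ((G x).re : ℂ) * fderiv ℝ ψ x 1 + ((G x).im : ℂ) * fderiv ℝ ψ x I := by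
    funext x
    exact lin2 _ _
  rw [e]
  exact (int_mulC hb hm hre (cd_cont hψ 1)).add (int_mulC hb hm him (cd_cont hψ I))

theorem inner_int (hb : Bornology.IsBounded Ω) (h : Sol Ω lam c u G) (v : ℂ) :
    IntegrableOn (fun x => (inner ℝ (G x) v : ℝ)) Ω := by
  have hGi := h.Gi hb
  have hre : IntegrableOn (fun y => (G y).re) Ω := hGi.re
  have him : IntegrableOn (fun y => (G y).im) Ω := hGi.im
  have e : (fun x => (inner ℝ (G x) v : ℝ)) = fun x => v.re * (G x).re + v.im * (G x).im := by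
    funext x
    rw [Complex.inner, mul_re, conj_re, conj_im]
    ring
  rw [e]
  exact (hre.const_mul _).add (him.const_mul _)

theorem weakL (hb : Bornology.IsBounded Ω) (hm : MeasurableSet Ω) (h : Sol Ω lam c u G)
    (ψ : ℂ → ℂ) (hψ : ContDiff ℝ 1 ψ) (ℓ : ℂ →L[ℝ] ℝ) :
    (∀ v : ℂ, ℓ (∫ x in Ω, ((u x - c : ℝ) : ℂ) * fderiv ℝ ψ x v) =
      ℓ (- ∫ x in Ω, ((inner ℝ (G x) v : ℝ) : ℂ) * ψ x)) ∧
    ℓ (∫ x in Ω, fderiv ℝ ψ x (G x)) = ℓ ((lam : ℂ) * ∫ x in Ω, (u x : ℂ) * ψ x) := by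
  have hfin := Sol.fin hb
  have hui := h.ui hb
  have huc : IntegrableOn (fun x => u x - c) Ω := hui.sub (integrable_const c)
  have hd : ∀ x v : ℂ, fderiv ℝ (fun y => ℓ (ψ y)) x v = ℓ (fderiv ℝ ψ x v) := by
    intro x v
    have h1 : HasFDerivAt (fun y => ℓ (ψ y)) (ℓ.comp (fderiv ℝ ψ x)) x :=
      ℓ.hasFDerivAt.comp x (hψ.differentiable (by norm_num) x).hasFDerivAt
    rw [h1.fderiv]
    rfl
  obtain ⟨w1, w2⟩ := Pool.Agent.W632.Schiffer.weak_all hb hm h.h1 h.h2 (fun y => ℓ (ψ y))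
    (ℓ.contDiff.comp hψ)
  constructor
  · intro v
    rw [map_neg, ← ℓ.integral_comp_comm (int_mulC hb hm huc (cd_cont hψ v)),
      ← ℓ.integral_comp_comm (int_mulC hb hm (inner_int hb h v) hψ.continuous)]
    have h2 := w1 v
    simp only [hd] at h2
    simp only [lmul]
    exact h2
  · rw [lmul, ← ℓ.integral_comp_comm (int_G hb hm h hψ),
      ← ℓ.integral_comp_comm (int_mulC hb hm hui hψ.continuous)]
    have h2 := w2
    simp only [hd] at h2
    simp only [lmul]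
    exact h2

theorem weakC (hb : Bornology.IsBounded Ω) (hm : MeasurableSet Ω) (h : Sol Ω lam c u G)
    (ψ : ℂ → ℂ) (hψ : ContDiff ℝ 1 ψ) :
    (∀ v : ℂ, ∫ x in Ω, ((u x - c : ℝ) : ℂ) * fderiv ℝ ψ x v =
      - ∫ x in Ω, ((inner ℝ (G x) v : ℝ) : ℂ) * ψ x) ∧
    ∫ x in Ω, fderiv ℝ ψ x (G x) = (lam : ℂ) * ∫ x in Ω, (u x : ℂ) * ψ x :=
  ⟨fun v => Complex.ext ((weakL hb hm h ψ hψ reCLM).1 v) ((weakL hb hm h ψ hψ imCLM).1 v),
    Complex.ext (weakL hb hm h ψ hψ reCLM).2 (weakL hb hm h ψ hψ imCLM).2⟩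

theorem weak : S_WEAK := by
  intro Ω lam c u G V hb hm h hV
  have hfin := Sol.fin hb
  have hui := h.ui hb
  have huc : IntegrableOn (fun x => u x - c) Ω := hui.sub (integrable_const c)
  have hGi := h.Gi hb
  have hre : IntegrableOn (fun y => (G y).re) Ω := hGi.re
  have him : IntegrableOn (fun y => (G y).im) Ω := hGi.im
  have hψ : ∀ v : ℂ, ContDiff ℝ 1 fun y => fderiv ℝ V y v := fun v =>
    (hV.fderiv_right (m := 1) (by norm_num)).clm_apply contDiff_const
  have hV1 : ContDiff ℝ 1 V := hV.of_le (by norm_num)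
  have hlc : Continuous (lap V) := by
    unfold lap
    exact (cd_cont (hψ 1) 1).add (cd_cont (hψ I) I)
  have k1 := (weakC hb hm h _ (hψ 1)).1 1
  have k2 := (weakC hb hm h _ (hψ I)).1 I
  have k3 := (weakC hb hm h V hV1).2
  have i1 : ∀ y, (inner ℝ (G y) (1 : ℂ) : ℝ) = (G y).re := fun y => by
    rw [Complex.inner]; simp
  have i2 : ∀ y, (inner ℝ (G y) I : ℝ) = (G y).im := fun y => by
    rw [Complex.inner]; simp
  simp only [i1] at k1
  simp only [i2] at k2
  have e1 : ∫ x in Ω, ((u x - c : ℝ) : ℂ) * lap V x =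
      (∫ x in Ω, ((u x - c : ℝ) : ℂ) * fderiv ℝ (fun y => fderiv ℝ V y 1) x 1) +
      ∫ x in Ω, ((u x - c : ℝ) : ℂ) * fderiv ℝ (fun y => fderiv ℝ V y I) x I := by
    rw [← integral_add (int_mulC hb hm huc (cd_cont (hψ 1) 1))
      (int_mulC hb hm huc (cd_cont (hψ I) I))]
    refine integral_congr_ae (Eventually.of_forall fun x => ?_)
    simp only [lap]
    ring
  have e2 : ∫ x in Ω, fderiv ℝ V x (G x) =
      (∫ x in Ω, ((G x).re : ℂ) * fderiv ℝ V x 1) + ∫ x in Ω, ((G x).im : ℂ) * fderiv ℝ V x I := by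
    rw [← integral_add (int_mulC hb hm hre (cd_cont hV1 1)) (int_mulC hb hm him (cd_cont hV1 I))]
    refine integral_congr_ae (Eventually.of_forall fun x => ?_)
    exact lin2 _ _
  have e3 : ∫ x in Ω, ((u x - c : ℝ) : ℂ) * lap V x =
      (∫ x in Ω, (u x : ℂ) * lap V x) - (c : ℂ) * ∫ x in Ω, lap V x := by
    have j1 : IntegrableOn (fun x => ((c : ℝ) : ℂ) * lap V x) Ω :=
      int_mulC (f := fun _ => c) hb hm (integrable_const c) hlc
    rw [← integral_const_mul, ← integral_sub (int_mulC hb hm hui hlc) j1]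
    refine integral_congr_ae (Eventually.of_forall fun x => ?_)
    simp only [ofReal_sub]
    ring
  have e4 : ∫ x in Ω, (u x : ℂ) * (lap V x + lam * V x) =
      (∫ x in Ω, (u x : ℂ) * lap V x) + (lam : ℂ) * ∫ x in Ω, (u x : ℂ) * V x := by
    have j1 : IntegrableOn (fun x => (lam : ℂ) * ((u x : ℂ) * V x)) Ω :=
      (int_mulC hb hm hui hV1.continuous).const_mul _
    rw [← integral_const_mul, ← integral_add (int_mulC hb hm hui hlc) j1]
    refine integral_congr_ae (Eventually.of_forall fun x => ?_)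
    simp only []
    ring
  rw [e4]
  linear_combination e1 - e3 + k1 + k2 - k3 + e2

end Pool.Agent.Y287.SC
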